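import Pool.Agent.H.MP_325d65_an.B

namespace Pool.Agent.Results.MP_325d65_an.No

open Filter Topology Complex MeasureTheory Set Pool.Agent.H.MP_325d65_an
open scoped InnerProductSpace

abbrev HH : Type := Lp ℂ 2 (volume.restrict (Ioo (0:ℝ) 1))

def IsC0 (S : ℝ → HH →L[ℂ] HH) : Prop :=
  S 0 = 1 ∧ (∀ s t, 0 ≤ s → 0 ≤ t → S (s + t) = S s * S t) ∧
    ∀ y, ContinuousOn (fun t => S t y) (Ici 0)

def Dom (S : ℝ → HH →L[ℂ] HH) : Set HH := {y | ∃ z, HasDerivWithinAt (fun t => S t y) z (Ici 0) 0}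

def Adm (L : ℝ) (a : ℝ → ℝ) : Prop :=
  AEStronglyMeasurable a (volume.restrict (Ioo 0 1)) ∧
    (∀ᵐ x ∂volume.restrict (Ioo 0 1), a x ∈ Icc (0:ℝ) 1) ∧ ∫ x in Ioo (0:ℝ) 1, a x = L

noncomputable def Obs (S : ℝ → HH →L[ℂ] HH) (T : ℝ) (a : ℝ → ℝ) : ℝ :=
  ⨅ y : {y // y ∈ Dom S ∧ y ≠ 0},
    (∫ t in (0:ℝ)..T, ∫ x in Ioo (0:ℝ) 1, a x * ‖S t y.1 x‖ ^ 2) / ‖S T y.1‖ ^ 2

def HL (L : ℝ) (g : ℝ → ℂ) : Prop :=
  ∀ β ν : ℝ, β ≠ 0 → 0 < ν → volume.real {x ∈ Ioo (0:ℝ) 1 | ν ≤ ‖β * g x‖ ^ 2} = L →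
    ∃ δ > 0, ∀ x ∈ frontier {x ∈ Ioo (0:ℝ) 1 | ν ≤ ‖β * g x‖ ^ 2} \ frontier (Ioo 0 1),
      δ ≤ |deriv (fun x => ‖β * g x‖ ^ 2) x|

def Spec (S : ℝ → HH →L[ℂ] HH) (b : HilbertBasis ℕ ℂ HH) (l : ℕ → ℂ) (g : ℕ → ℝ → ℂ) : Prop :=
  (∀ j t, 0 ≤ t → S t (b j) = cexp (-l j * t) • b j) ∧ (Monotone fun j => (l j).re) ∧
    Tendsto (fun j => (l j).re) atTop atTop ∧ (l 0).re < (l 1).re ∧
    ∀ j, b j =ᵐ[volume.restrict (Ioo 0 1)] g j ∧ AnalyticOnNhd ℝ (g j) univ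

theorem hl : HL (1 / 2) (gg 0) := fun β ν hβ hν h => by
  have e : ∀ x, ‖β * gg 0 x‖ ^ 2 = β ^ 2 * (1 + Real.cos (2 * Real.pi * x)) := fun x => by
    rw [norm_mul, mul_pow, (g0 x).1, norm_real, Real.norm_eq_abs, sq_abs]
  simp only [e] at h ⊢
  have b : 0 < β ^ 2 := by positivity
  have c : ν < β ^ 2 * 2 := by
    by_contra c
    rw [eq_empty_of_forall_notMem (s := {x ∈ Ioo (0:ℝ) 1 | _}) fun x hx => ?_] at h
    · simp at h
    have := (Real.cos_eq_one_iff_of_lt_of_lt (x := 2 * Real.pi * x) (by nlinarith [hx.1.1, Real.pi_pos])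
      (by nlinarith [hx.1.2, Real.pi_pos])).1 (le_antisymm (Real.cos_le_one _) (by nlinarith [hx.2]))
    nlinarith [hx.1.1, Real.pi_pos]
  refine ⟨2 * Real.pi * √(ν * (β ^ 2 * 2 - ν)), mul_pos Real.two_pi_pos (Real.sqrt_pos.2
    (mul_pos hν (sub_pos.2 c))), fun x hx => ?_⟩
  have d : ν = β ^ 2 * (1 + Real.cos (2 * Real.pi * x)) := by
    rcases frontier_inter_subset _ _ hx.1 with a | a
    · exact (hx.2 a.1).elim
    · exact frontier_le_subset_eq (f := fun _ => ν) (g := fun x => β ^ 2 * (1 + Real.cos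
        (2 * Real.pi * x))) continuous_const (by fun_prop) a.2
  rw [(((((hasDerivAt_id' x).const_mul (2 * Real.pi)).cos).const_add 1).const_mul (β ^ 2)).deriv,
    ← abs_of_pos Real.two_pi_pos, show ν * (β ^ 2 * 2 - ν) =
      (β ^ 2 * Real.sin (2 * Real.pi * x)) ^ 2 by rw [mul_pow, Real.sin_sq, d]; ring,
    Real.sqrt_sq_eq_abs, ← abs_mul, ← abs_neg]
  exact le_of_eq (by congr 1; simp [abs_of_pos Real.pi_pos]; ring)

theorem result : ∃ (S : ℝ → HH →L[ℂ] HH) (b : HilbertBasis ℕ ℂ HH) (l : ℕ → ℂ) (g : ℕ → ℝ → ℂ)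
    (L T : ℝ) (a : ℝ → ℝ), IsC0 S ∧ Spec S b l g ∧ HL L (g 0) ∧ 0 < L ∧ L < 1 ∧ 0 < T ∧ Adm L a ∧
      (∀ a', Adm L a' → Obs S T a' ≤ Obs S T a) ∧ ∀ x, 0 < a x ∧ a x < 1 := by
  obtain ⟨b, hb⟩ := basis
  have l1 : Monotone fun j => (lam j).re := monotone_nat_of_le_succ fun j => by
    rcases j with _ | _ | _ | _ | j <;> norm_num [lam]
  obtain ⟨S, h1, h2⟩ := semi b lam fun j => le_trans (by simp [lam]) (l1 (Nat.zero_le j))
  obtain ⟨M, m1, m2, m3, m4, m5⟩ := mult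
  rw [← hb, ← hb] at m2 m3
  have o := orthonormal_iff_ite.1 b.orthonormal
  have ev : ∀ j t, 0 ≤ t → S t (b j) = cexp (-lam j * t) • b j := fun j t ht => hext b fun i => by
    rw [h2 t ht, inner_smul_right, o]; split_ifs with h <;> simp [h]
  have dm : ∀ j, b j ∈ Dom S ∧ b j ≠ 0 := fun j => ⟨⟨_, (((((hasDerivAt_id (0:ℝ)).ofReal_comp.const_mul
    (-lam j)).cexp).smul_const (b j)).hasDerivWithinAt.congr (ev j) (ev j 0 le_rfl))⟩,
    b.orthonormal.ne_zero j⟩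
  have co : ∫ x in Ioo (0:ℝ) 1, Real.cos (2 * Real.pi * x) = 0 := by
    rw [← integral_Ioc_eq_integral_Ioo, ← intervalIntegral.integral_of_le zero_le_one,
      intervalIntegral.integral_comp_mul_left _ Real.two_pi_pos.ne']
    simp
  have ci : Integrable (fun x => Real.cos (2 * Real.pi * x)) (volume.restrict (Ioo 0 1)) :=
    (Continuous.integrableOn_Icc (by fun_prop)).mono_set Ioo_subset_Icc_self
  refine ⟨S, b, lam, fun j => gg j, 1 / 2, Real.log 2, aa, ⟨ContinuousLinearMap.ext fun y => hext b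
    fun j => by simp [h2], fun s t a c => ContinuousLinearMap.ext fun y => hext b fun j => ?_,
    fun y => (h1 y).continuousOn⟩, ⟨ev, l1, ?_, by norm_num [lam], fun j => ⟨hb j ▸ tl_ae _, gg_an j⟩⟩,
    hl, by norm_num, by norm_num, l2, ⟨Continuous.aestronglyMeasurable (by unfold aa; fun_prop),
      Eventually.of_forall fun x => ⟨by linarith [(aa_bd x).1], (aa_bd x).2.le⟩, ?_⟩,
    fun a ⟨a1, a2, a3⟩ => ?_, fun x => ⟨by linarith [(aa_bd x).1], (aa_bd x).2⟩⟩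
  · rw [mul_apply_eq_comp, h2 _ (add_nonneg a c), h2 _ a, h2 _ c, ← mul_assoc, ← exp_add]
    congr 2; push_cast; ring
  · refine (tendsto_add_atTop_iff_nat 4).1 ?_
    simp only [lam, natCast_re]
    exact tendsto_natCast_atTop_atTop.comp (tendsto_add_atTop_nat 4)
  · unfold aa
    rw [integral_add (integrable_const _) (ci.div_const _), integral_div, integral_div, co]
    simp
  have : Nonempty {y // y ∈ Dom S ∧ y ≠ 0} := ⟨⟨_, dm 0⟩⟩
  refine le_trans (b := 3 / 14) ?_ (le_ciInf fun y => ?_)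
  swap
  · simp only [← m5]
    refine (le_div_iff₀ (pow_pos (norm_pos_iff.2 fun h => y.2.2 (hext b fun j => ?_)) 2)).2
      (low b S h1 h2 M m1 m2 m3 m4 _)
    have := h2 _ l2.le j y.1
    rw [h, inner_zero_right, eq_comm, mul_eq_zero] at this
    rw [this.resolve_left (exp_ne_zero _), inner_zero_right]
  have up : ∀ j, Obs S (Real.log 2) a ≤ (∫ t in (0:ℝ)..Real.log 2, Real.exp (-2 * (lam j).re * t)) *
      (∫ x in Ioo (0:ℝ) 1, a x * ‖gg j x‖ ^ 2) / Real.exp (-2 * (lam j).re * Real.log 2) := fun j => by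
    refine (ciInf_le ⟨0, ?_⟩ ⟨_, dm j⟩).trans (le_of_eq ?_)
    · rintro _ ⟨y, rfl⟩
      exact div_nonneg (intervalIntegral.integral_nonneg l2.le fun t _ => integral_nonneg_of_ae
        (a2.mono fun x h => mul_nonneg h.1 (by positivity))) (by positivity)
    congr 1
    · rw [← intervalIntegral.integral_mul_const]
      refine intervalIntegral.integral_congr fun t ht => ?_
      rw [uIcc_of_le l2.le] at ht
      simp only [ev j t ht.1]
      rw [← integral_const_mul]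
      refine integral_congr_ae ?_
      filter_upwards [Lp.coeFn_smul (cexp (-lam j * t)) (b j), hb j ▸ tl_ae (gg j)] with x c d
      rw [c, Pi.smul_apply, d, smul_eq_mul, ns]; ring
    · have := ns (lam j) (Real.log 2) 1
      rw [ev j _ l2.le, norm_smul, b.orthonormal.1 j]
      simpa using this
  have u0 := up 0
  have u1 := up 1
  have ai : Integrable a (volume.restrict (Ioo 0 1)) := Integrable.of_bound a1 1 (a2.mono fun x h => by
    rw [Real.norm_of_nonneg h.1]; exact h.2)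
  have ac := ci.bdd_mul (c := 1) a1 (a2.mono fun x h => by rw [Real.norm_of_nonneg h.1]; exact h.2)
  simp only [(g0 _).1, (g0 _).2, mul_add, mul_sub, mul_one] at u0 u1
  rw [integral_add ai ac, a3] at u0
  rw [integral_sub ai ac, a3] at u1
  norm_num [lam, i1, i2, Real.exp_log] at u0 u1
  rw [two_mul (Real.log 2), Real.exp_add, Real.exp_log two_pos] at u0
  linarith

end Pool.Agent.Results.MP_325d65_an.No
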